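import Pool.Agent.Lib.MP_f4617e_lc_G.AllOld
import Pool.Agent.Lib.MP_f4617e_lc_G.AchK2

/-!
MP_f4617e_lc: the Hamming bound for codes correcting localized errors, a larger range of
error fractions for every alphabet with at least three symbols.
-/

set_option autoImplicit false

namespace Pool.Agent.Results.MP_f4617e_lc.AllAlphabets

open Pool.Agent.MPf4617e

/-- The Hamming bound is achievable at `(q, τ)` for `q = 3, ..., 12` and all `τ` up to the bounds
in the statement, and for every `q ≥ 13` and all `τ < 1 / 2 - 1 / q ^ 2`. -/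
theorem result :
    (∀ τ : ℝ, 0 < τ → τ ≤ 0.4613 → Achievable 3 τ) ∧
    (∀ τ : ℝ, 0 < τ → τ ≤ 0.4709 → Achievable 4 τ) ∧
    (∀ τ : ℝ, 0 < τ → τ ≤ 0.4812 → Achievable 5 τ) ∧
    (∀ τ : ℝ, 0 < τ → τ ≤ 0.4869 → Achievable 6 τ) ∧
    (∀ τ : ℝ, 0 < τ → τ ≤ 0.4901 → Achievable 7 τ) ∧
    (∀ τ : ℝ, 0 < τ → τ ≤ 0.4923 → Achievable 8 τ) ∧
    (∀ τ : ℝ, 0 < τ → τ ≤ 0.4938 → Achievable 9 τ) ∧
    (∀ τ : ℝ, 0 < τ → τ ≤ 0.4949 → Achievable 10 τ) ∧
    (∀ τ : ℝ, 0 < τ → τ ≤ 0.4958 → Achievable 11 τ) ∧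
    (∀ τ : ℝ, 0 < τ → τ ≤ 0.4964 → Achievable 12 τ) ∧
    (∀ q : ℕ, 13 ≤ q → ∀ τ : ℝ, 0 < τ → τ < 1 / 2 - 1 / (q : ℝ) ^ 2 → Achievable q τ) := by
  refine ⟨fun τ h0 h1 => ?_, fun τ h0 h1 => ?_, fun τ h0 h1 => ?_, fun τ h0 h1 => ?_,
    fun τ h0 h1 => ?_, fun τ h0 h1 => ?_, fun τ h0 h1 => ?_, fun τ h0 h1 => ?_,
    fun τ h0 h1 => ?_, fun τ h0 h1 => ?_, fun q hq τ h0 h1 => ?_⟩
  · rcases lt_or_ge τ 0.448 with h | h
    · exact all_old.1 τ h0 (by linarith)
    · rcases lt_or_ge τ 0.4588 with h2 | h2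
      · exact ach3 (by linarith) (by linarith)
      · exact ach34 (by linarith) (by linarith)
  · rcases lt_or_ge τ 0.458 with h | h
    · exact all_old.2.1 τ h0 (by linarith)
    · rcases lt_or_ge τ 0.465 with h2 | h2
      · exact ach4 (by linarith) (by linarith)
      · exact ach43 (by linarith) (by linarith)
  · rcases lt_or_ge τ 0.459 with h | h
    · exact all_old.2.2 5 le_rfl τ h0 (by norm_num at h ⊢; linarith)
    · rcases lt_or_ge τ 0.4733 with h2 | h2
      · exact ach5 (by linarith) (by linarith)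
      · exact ach53 (by linarith) (by linarith)
  · rcases lt_or_ge τ 0.472 with h | h
    · exact all_old.2.2 6 (by norm_num) τ h0 (by norm_num at h ⊢; linarith)
    · rcases lt_or_ge τ 0.479 with h2 | h2
      · exact ach6 (by linarith) (by linarith)
      · exact ach63 (by linarith) (by linarith)
  · rcases lt_or_ge τ 0.4795 with h | h
    · exact all_old.2.2 7 (by norm_num) τ h0 (by norm_num at h ⊢; linarith)
    · rcases lt_or_ge τ 0.4831 with h2 | h2
      · exact ach7 (by linarith) (by linarith)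
      · exact ach73 (by linarith) (by linarith)
  · rcases lt_or_ge τ 0.4843 with h | h
    · exact all_old.2.2 8 (by norm_num) τ h0 (by norm_num at h ⊢; linarith)
    · rcases lt_or_ge τ 0.4862 with h2 | h2
      · exact ach8 (by linarith) (by linarith)
      · exact ach83 (by linarith) (by linarith)
  · rcases lt_or_ge τ 0.4876 with h | h
    · exact all_old.2.2 9 (by norm_num) τ h0 (by norm_num at h ⊢; linarith)
    · exact ach93 (by linarith) (by linarith)
  · rcases lt_or_ge τ 0.49 with h | h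
    · exact all_old.2.2 10 (by norm_num) τ h0 (by norm_num at h ⊢; linarith)
    · exact ach103 (by linarith) (by linarith)
  · rcases lt_or_ge τ 0.4917 with h | h
    · exact all_old.2.2 11 (by norm_num) τ h0 (by norm_num at h ⊢; linarith)
    · exact ach113 (by linarith) (by linarith)
  · rcases lt_or_ge τ 0.493 with h | h
    · exact all_old.2.2 12 (by norm_num) τ h0 (by norm_num at h ⊢; linarith)
    · exact ach123 (by linarith) (by linarith)
  · exact all_old.2.2 q (by omega) τ h0 h1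

end Pool.Agent.Results.MP_f4617e_lc.AllAlphabets
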