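import Pool.Agent.Lib.MP_f4617e_lc.One
import Pool.Agent.Lib.MP_f4617e_lc.Large2

/-!
MP_f4617e_lc: the Hamming bound for codes correcting localized errors over large alphabets.
-/

set_option autoImplicit false

namespace Pool.Agent.Results.MP_f4617e_lc.LargeAlphabets

open Pool.Agent.MPf4617e

theorem ach_small {q : ℕ} (hq : 3 ≤ q) {τ : ℝ} (h0 : 0 < τ) (h1 : τ < 4 / 9) :
    Achievable q τ := by
  refine ach_one hq h0 ?_ (by linarith)
  have hq' : (3 : ℝ) ≤ q := by exact_mod_cast hq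
  unfold al
  rw [div_lt_iff₀ (by linarith), sub_lt_iff_lt_add, ← sub_lt_iff_lt_add', lt_div_iff₀ (by linarith)]
  nlinarith [mul_nonneg (sub_nonneg.2 hq') (sub_nonneg.2 hq'), mul_pos h0 h0,
    mul_nonneg (sub_nonneg.2 hq') (sub_nonneg.2 h1.le), mul_nonneg
      (mul_nonneg (sub_nonneg.2 hq') (sub_nonneg.2 hq')) (sub_nonneg.2 h1.le)]

/-- For all sufficiently large `q` the Hamming bound is achievable at `(q, τ)` for all
`0 < τ < 1 / 2 - exp (- (log q) ^ 2 / (4 log log q))`. -/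
theorem result : ∃ q0 : ℕ, ∀ q : ℕ, q0 ≤ q → ∀ τ : ℝ, 0 < τ →
    τ < 1 / 2 - Real.exp (-((Real.log q) ^ 2 / (4 * Real.log (Real.log q)))) →
      Achievable q τ := by
  obtain ⟨q0, hq0⟩ := ach_large2
  refine ⟨max q0 3, fun q hq τ h0 h1 => ?_⟩
  rcases lt_or_ge τ (4 / 9) with h | h
  · exact ach_small (le_trans (le_max_right _ _) hq) h0 h
  · exact hq0 q (le_trans (le_max_left _ _) hq) τ (by linarith) h1

end Pool.Agent.Results.MP_f4617e_lc.LargeAlphabets
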