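import Pool.Agent.Lib.MP_f4617e_lc_G.AllOld
import Pool.Agent.Lib.MP_f4617e_lc_G.L2R
import Pool.Agent.Lib.MP_f4617e_lc_G.PR43
import Pool.Agent.Lib.MP_f4617e_lc_G.PR53

/-!
MP_f4617e_lc: rates close to the Hamming bound for codes correcting localized errors, for all
fractions of errors below one half.
-/

set_option autoImplicit false

namespace Pool.Agent.Results.MP_f4617e_lc.NearHamming

open Pool.Agent.MPf4617e

theorem ach_rate_small {q : ℕ} (hq : 3 ≤ q) {τ δ : ℝ} (h0 : 0 < τ) (h1 : τ < 4 / 9)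
    (hδ : 0 ≤ δ) : AchRate q τ (Hq q τ - δ) := by
  have h : AchRate q τ (Hq q τ) := ach_small hq h0 h1
  exact h.mono (by linarith)

/-- Let `0 < τ < 1 / 2`. For every `q ≥ 4` the rate `H_q (τ) - 11 / (10 q ^ 2 ln q)` is achievable
at `(q, τ)`; for all sufficiently large `q` (independently of `τ`) the rate
`H_q (τ) - exp (-(ln q) ^ 2 / (4 ln ln q))` is achievable at `(q, τ)`; and two better explicit
rates for `q = 4` and `q = 5`. -/
theorem result :
    (∀ q : ℕ, 4 ≤ q → ∀ τ : ℝ, 0 < τ → τ < 1 / 2 →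
      AchRate q τ (Hq q τ - 11 / (10 * (q : ℝ) ^ 2 * Real.log q))) ∧
    (∃ q0 : ℕ, ∀ q : ℕ, q0 ≤ q → ∀ τ : ℝ, 0 < τ → τ < 1 / 2 →
      AchRate q τ (Hq q τ - Real.exp (-((Real.log q) ^ 2 / (4 * Real.log (Real.log q)))))) ∧
    (∀ τ : ℝ, 0 < τ → τ < 1 / 2 →
      AchRate 4 τ (Real.logb 4 (343 / 38) / 3 - τ * Real.logb 4 (7 / 2))) ∧
    (∀ τ : ℝ, 0 < τ → τ < 1 / 2 →
      AchRate 5 τ (Real.logb 5 (61 / 4) / 3 - τ * Real.logb 5 (37 / 9))) := by
  refine ⟨fun q hq τ h0 h1 => ?_, ?_, fun τ h0 h1 => rateR43 h0 h1, fun τ h0 h1 => rateR53 h0 h1⟩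
  · rcases lt_or_ge τ (4 / 9) with h | h
    · refine ach_rate_small (by omega) h0 h ?_
      have hq' : (4 : ℝ) ≤ q := by exact_mod_cast hq
      have hlq : 0 < Real.log q := Real.log_pos (by linarith)
      positivity
    · exact rate2 hq h h1
  · obtain ⟨q0, hq0⟩ := rate_large
    refine ⟨max q0 3, fun q hq τ h0 h1 => ?_⟩
    rcases lt_or_ge τ (4 / 9) with h | h
    · exact ach_rate_small (le_trans (le_max_right _ _) hq) h0 h (Real.exp_pos _).le
    · exact hq0 q (le_trans (le_max_left _ _) hq) τ (by linarith) h1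

end Pool.Agent.Results.MP_f4617e_lc.NearHamming
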