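import Pool.Agent.Lib.MP_f4617e_lc_G.PR33

/-!
MP_f4617e_lc: codes over three symbols correcting localized errors have a rate bounded away from
zero for all fractions of errors below one half.
-/

set_option autoImplicit false

namespace Pool.Agent.Results.MP_f4617e_lc.PositiveRate

open Pool.Agent.MPf4617e

/-- For all `0 < τ < 1 / 2` the rate `(1 / 3) log_3 (27 / 14) - τ log_3 (3 / 2)` is achievable at
`(3, τ)`. -/
theorem result : ∀ τ : ℝ, 0 < τ → τ < 1 / 2 →
    AchRate 3 τ (Real.logb 3 (27 / 14) / 3 - τ * Real.logb 3 (3 / 2)) :=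
  fun _ h0 h1 => rate33 h0 h1

end Pool.Agent.Results.MP_f4617e_lc.PositiveRate
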